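import Mathlib

/-!
# Images of paralindelöf spaces under closed maps with Lindelöf fibres

Let `f : X → Y` be a closed continuous surjection and let `X` be paralindelöf. If every fibre of
`f` is Lindelöf, or has a Lindelöf boundary, then `Y` is paralindelöf. In particular perfect
images of paralindelöf spaces are paralindelöf.
-/

set_option autoImplicit false

namespace Pool.Agent.Results.MP_6bd103_gt.LindelofFibres

open Set Topology

universe u v

/-- The indexed family `A` of subsets of `X` is locally countable: every point of `X` has a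
neighbourhood which meets only countably many members of the family. -/
def LocallyCountable {ι : Type*} {X : Type u} [TopologicalSpace X] (A : ι → Set X) : Prop :=
  ∀ x : X, ∃ N ∈ 𝓝 x, {i | (A i ∩ N).Nonempty}.Countable

/-- `X` is paralindelöf: every open cover of `X` has a locally countable open refinement (which
is again a cover). -/
def Paralindelof (X : Type u) [TopologicalSpace X] : Prop :=
  ∀ U : Set (Set X), (∀ u ∈ U, IsOpen u) → ⋃₀ U = univ →
    ∃ V : Set (Set X), (∀ v ∈ V, IsOpen v) ∧ ⋃₀ V = univ ∧ (∀ v ∈ V, ∃ u ∈ U, v ⊆ u) ∧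
      LocallyCountable (fun v : V => (v : Set X))

/-- In a paralindelöf space a locally countable family has a locally countable open expansion. -/
lemma expansion {ι : Type*} {X : Type u} [TopologicalSpace X] (hX : Paralindelof X)
    (A : ι → Set X) (hA : LocallyCountable A) :
    ∃ B : ι → Set X, (∀ i, IsOpen (B i)) ∧ (∀ i, A i ⊆ B i) ∧ LocallyCountable B := by
  obtain ⟨V, hVo, hVc, hVr, hVl⟩ := hX {u | IsOpen u ∧ {i | (A i ∩ u).Nonempty}.Countable}
    (fun u hu => hu.1) (by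
      rw [eq_univ_iff_forall]
      intro x
      obtain ⟨N, hN, hc⟩ := hA x
      obtain ⟨u, huN, huo, hxu⟩ := mem_nhds_iff.1 hN
      exact ⟨u, ⟨huo, hc.mono fun i hi => hi.mono (inter_subset_inter_right _ huN)⟩, hxu⟩)
  refine ⟨fun i => ⋃ v ∈ {v ∈ V | (A i ∩ v).Nonempty}, v, ?_, ?_, ?_⟩
  · intro i
    exact isOpen_biUnion fun v hv => hVo v hv.1
  · intro i x hx
    have hx' : x ∈ ⋃₀ V := by rw [hVc]; trivial
    obtain ⟨v, hv, hxv⟩ := hx'
    exact mem_biUnion (show v ∈ {v ∈ V | (A i ∩ v).Nonempty} from ⟨hv, x, hx, hxv⟩) hxv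
  · intro x
    obtain ⟨N, hN, hc⟩ := hVl x
    refine ⟨N, hN, ?_⟩
    have h1 : {i | ((⋃ v ∈ {v ∈ V | (A i ∩ v).Nonempty}, v) ∩ N).Nonempty} ⊆
        ⋃ v ∈ {v : V | ((v : Set X) ∩ N).Nonempty}, {i | (A i ∩ (v : Set X)).Nonempty} := by
      rintro i ⟨y, hy, hyN⟩
      obtain ⟨v, hv, hyv⟩ := mem_iUnion₂.1 hy
      exact mem_iUnion₂.2 ⟨⟨v, hv.1⟩, ⟨y, hyv, hyN⟩, hv.2⟩
    refine (Countable.biUnion hc fun v _ => ?_).mono h1
    obtain ⟨u, ⟨-, hu⟩, hvu⟩ := hVr v v.2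
    exact hu.mono fun i hi => hi.mono (inter_subset_inter_right _ hvu)

/-- A Lindelöf set has an open neighbourhood that meets countably many members of a locally
countable family. -/
lemma lindelof_nhds {ι : Type*} {X : Type u} [TopologicalSpace X] (A : ι → Set X)
    (hA : LocallyCountable A) (L : Set X) (hL : IsLindelof L) :
    ∃ u : Set X, IsOpen u ∧ L ⊆ u ∧ {i | (A i ∩ u).Nonempty}.Countable := by
  have h : ∀ x : X, ∃ u : Set X, IsOpen u ∧ x ∈ u ∧ {i | (A i ∩ u).Nonempty}.Countable := by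
    intro x
    obtain ⟨N, hN, hc⟩ := hA x
    obtain ⟨u, huN, huo, hxu⟩ := mem_nhds_iff.1 hN
    exact ⟨u, huo, hxu, hc.mono fun i hi => hi.mono (inter_subset_inter_right _ huN)⟩
  choose u huo hxu huc using h
  obtain ⟨T, hT, hLT⟩ := hL.elim_countable_subcover u huo
    (fun x _ => mem_iUnion.2 ⟨x, hxu x⟩)
  refine ⟨⋃ x ∈ T, u x, isOpen_biUnion fun x _ => huo x, hLT, ?_⟩
  refine (Countable.biUnion hT fun x _ => huc x).mono ?_
  rintro i ⟨y, hyA, hy⟩
  obtain ⟨x, hxT, hyx⟩ := mem_iUnion₂.1 hy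
  exact mem_iUnion₂.2 ⟨x, hxT, y, hyA, hyx⟩

/-- Closed continuous images of paralindelöf spaces are paralindelöf if every fibre is Lindelöf or
has a Lindelöf boundary. -/
theorem result (X : Type u) (Y : Type v) [TopologicalSpace X] [TopologicalSpace Y]
    (f : X → Y) (hf : Continuous f) (hcl : IsClosedMap f) (hs : Function.Surjective f)
    (hfib : ∀ y : Y, IsLindelof (f ⁻¹' {y}) ∨ IsLindelof (frontier (f ⁻¹' {y})))
    (hX : Paralindelof X) : Paralindelof Y := by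
  classical
  -- the sets `L y`
  have hL : ∀ y : Y, ∃ L : Set X, L ⊆ f ⁻¹' {y} ∧ L.Nonempty ∧
      ∃ M : Set X, IsLindelof M ∧ L ⊆ M ∧ ∀ u : Set X, IsOpen u → M ⊆ u →
        ∃ o : Set Y, IsOpen o ∧ y ∈ o ∧ f ⁻¹' o ⊆ u ∪ f ⁻¹' {y} := by
    intro y
    have key : ∀ w : Set X, IsOpen w → f ⁻¹' {y} ⊆ w →
        ∃ o : Set Y, IsOpen o ∧ y ∈ o ∧ f ⁻¹' o ⊆ w := by
      intro w hw hyw
      refine ⟨(f '' wᶜ)ᶜ, (hcl _ hw.isClosed_compl).isOpen_compl, ?_, ?_⟩
      · rintro ⟨x, hx, hxy⟩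
        exact hx (hyw hxy)
      · intro x hx
        by_contra hxw
        exact hx ⟨x, hxw, rfl⟩
    obtain ⟨p, hp⟩ := hs y
    rcases hfib y with h | h
    · refine ⟨f ⁻¹' {y}, subset_rfl, ⟨p, hp⟩, f ⁻¹' {y}, h, subset_rfl, ?_⟩
      intro u hu hyu
      obtain ⟨o, ho, hyo, hou⟩ := key u hu hyu
      exact ⟨o, ho, hyo, hou.trans subset_union_left⟩
    · refine ⟨{p}, ?_, ⟨p, rfl⟩, {p} ∪ frontier (f ⁻¹' {y}), ?_, subset_union_left, ?_⟩
      · rintro x rfl
        exact hp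
      · exact isLindelof_singleton.union h
      · intro u hu hyu
        obtain ⟨o, ho, hyo, hou⟩ := key (u ∪ interior (f ⁻¹' {y})) (hu.union isOpen_interior)
          (by
            intro x hx
            by_cases hxi : x ∈ interior (f ⁻¹' {y})
            · exact Or.inr hxi
            · exact Or.inl (hyu (Or.inr ⟨subset_closure hx, hxi⟩)))
        exact ⟨o, ho, hyo, hou.trans (union_subset_union_right _ interior_subset)⟩
  choose L hLy hLne M hM hLM hLU using hL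
  intro V hVo hVc
  obtain ⟨W, hWo, hWc, hWr, hWl⟩ := hX ((fun v => f ⁻¹' v) '' V)
    (by
      rintro _ ⟨v, hv, rfl⟩
      exact (hVo v hv).preimage hf)
    (by
      rw [eq_univ_iff_forall]
      intro x
      have hx : f x ∈ ⋃₀ V := by rw [hVc]; trivial
      obtain ⟨v, hv, hxv⟩ := hx
      exact ⟨_, ⟨v, hv, rfl⟩, hxv⟩)
  have hWr' : ∀ w : W, ∃ v ∈ V, (w : Set X) ⊆ f ⁻¹' v := by
    intro w
    obtain ⟨_, ⟨v, hv, rfl⟩, hwv⟩ := hWr w w.2
    exact ⟨v, hv, hwv⟩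
  choose φ hφV hφ using hWr'
  -- the sets `A w` of points of `Y`
  let A : W → Set Y := fun w => {y | ((w : Set X) ∩ L y).Nonempty}
  have hA : ∀ y : Y, ∃ o : Set Y, IsOpen o ∧ y ∈ o ∧ {w | (A w ∩ o).Nonempty}.Countable := by
    intro y
    obtain ⟨u, huo, hLu, huc⟩ := lindelof_nhds (fun w : W => (w : Set X)) hWl (M y) (hM y)
    obtain ⟨o, ho, hyo, hou⟩ := hLU y u huo hLu
    refine ⟨o, ho, hyo, huc.mono ?_⟩
    rintro w ⟨y', ⟨x, hxw, hxL⟩, hy'o⟩
    by_cases hyy : y' = y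
    · subst hyy
      exact ⟨x, hxw, hLu (hLM _ hxL)⟩
    · have h1 : f x = y' := hLy y' hxL
      have h2 : x ∈ u ∪ f ⁻¹' {y} := hou (show f x ∈ o by rw [h1]; exact hy'o)
      rcases h2 with h2 | h2
      · exact ⟨x, hxw, h2⟩
      · exact absurd (h1.symm.trans h2) hyy
  obtain ⟨B, hBo, hAB, hBl⟩ := expansion hX (fun w => f ⁻¹' (A w)) (by
    intro x
    obtain ⟨o, ho, hyo, hc⟩ := hA (f x)
    refine ⟨f ⁻¹' o, (ho.preimage hf).mem_nhds hyo, hc.mono ?_⟩
    rintro w ⟨x', hx', hx'o⟩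
    exact ⟨f x', hx', hx'o⟩)
  let O : W → Set Y := fun w => (f '' (B w)ᶜ)ᶜ ∩ φ w
  have hOo : ∀ w, IsOpen (O w) := fun w =>
    ((hcl _ (hBo w).isClosed_compl).isOpen_compl).inter (hVo _ (hφV w))
  have hOl : ∀ y : Y, ∃ o ∈ 𝓝 y, {w | (O w ∩ o).Nonempty}.Countable := by
    intro y
    obtain ⟨u, huo, hLu, huc⟩ := lindelof_nhds B hBl (M y) (hM y)
    obtain ⟨o, ho, hyo, hou⟩ := hLU y u huo hLu
    refine ⟨o, ho.mem_nhds hyo, huc.mono ?_⟩
    rintro w ⟨y', ⟨hy'B, -⟩, hy'o⟩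
    have hsub : f ⁻¹' {y'} ⊆ B w := by
      intro x hx
      by_contra hxB
      exact hy'B ⟨x, hxB, hx⟩
    obtain ⟨x, hx⟩ := hLne y'
    have hxB : x ∈ B w := hsub (hLy y' hx)
    by_cases hyy : y' = y
    · subst hyy
      exact ⟨x, hxB, hLu (hLM _ hx)⟩
    · have h1 : f x = y' := hLy y' hx
      have h2 : x ∈ u ∪ f ⁻¹' {y} := hou (show f x ∈ o by rw [h1]; exact hy'o)
      rcases h2 with h2 | h2
      · exact ⟨x, hxB, h2⟩
      · exact absurd (h1.symm.trans h2) hyy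
  refine ⟨Set.range O, ?_, ?_, ?_, ?_⟩
  · rintro _ ⟨w, rfl⟩
    exact hOo w
  · rw [eq_univ_iff_forall]
    intro y
    obtain ⟨x, hx⟩ := hLne y
    have hxW : x ∈ ⋃₀ W := by rw [hWc]; trivial
    obtain ⟨w, hw, hxw⟩ := hxW
    refine ⟨O ⟨w, hw⟩, ⟨⟨w, hw⟩, rfl⟩, ?_, ?_⟩
    · rintro ⟨x', hx'B, hx'y⟩
      apply hx'B
      apply hAB
      show ((w : Set X) ∩ L (f x')).Nonempty
      rw [hx'y]
      exact ⟨x, hxw, hx⟩
    · have h1 : f x = y := hLy y hx
      rw [← h1]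
      exact hφ ⟨w, hw⟩ hxw
  · rintro _ ⟨w, rfl⟩
    exact ⟨φ w, hφV w, inter_subset_right⟩
  · intro y
    obtain ⟨o, ho, hc⟩ := hOl y
    refine ⟨o, ho, ?_⟩
    have h1 : {v : Set.range O | ((v : Set Y) ∩ o).Nonempty} ⊆
        (fun w => (⟨O w, w, rfl⟩ : Set.range O)) '' {w | (O w ∩ o).Nonempty} := by
      rintro ⟨_, w, rfl⟩ hv
      exact ⟨w, hv, rfl⟩
    exact (hc.image _).mono h1

end Pool.Agent.Results.MP_6bd103_gt.LindelofFibres
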